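import Mathlib
import Pool.Agent.H633R3.DiscDefs

/-!
Item (ii): both sets `{n ^ 2 + 1}` and `{n ^ 2 - 1}` are bad. In both cases the unimodular function
is `m ↦ χ(odd part of m)`, where `χ = (-2 / ·)` is the odd primitive quadratic character modulo
`8`. Along `n ^ 2 + 1` this function is periodic with period `8` and mean zero. Along
`n ^ 2 - 1 = (n - 1) (n + 1)` it is not periodic, but its sums over the blocks of `32` consecutive
values of `n` all vanish.
-/

set_option autoImplicit false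

namespace Pool.Agent.Results.MP_726576_nt.SquaresPlusMinusOne

open Finset Pool.Agent.H633R3.Disc

/-- `-1` on the circle -/
noncomputable def m1 : Circle := Circle.exp Real.pi

theorem coe_m1 : (m1 : ℂ) = -1 := by
  unfold m1
  rw [Circle.coe_exp, Complex.exp_pi_mul_I]

theorem m1_sq : m1 * m1 = 1 := by
  apply Circle.ext
  rw [Circle.coe_mul, coe_m1, Circle.coe_one]
  norm_num

/-- the completely multiplicative function `m ↦ (-2 / odd part of m)` -/
noncomputable def f (m : ℕ) : Circle :=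
  if ordCompl[2] m % 8 = 1 ∨ ordCompl[2] m % 8 = 3 then 1 else m1

theorem odd_part {m : ℕ} (hm : 1 ≤ m) : ordCompl[2] m % 2 = 1 := by
  have h := Nat.not_dvd_ordCompl Nat.prime_two (n := m) (by omega)
  omega

theorem f_mul (m n : ℕ) (hm : 1 ≤ m) (hn : 1 ≤ n) : f (m * n) = f m * f n := by
  unfold f
  rw [Nat.ordCompl_mul]
  have h1 := odd_part hm
  have h2 := odd_part hn
  set x := ordCompl[2] m
  set y := ordCompl[2] n
  have h3 : x % 8 = 1 ∨ x % 8 = 3 ∨ x % 8 = 5 ∨ x % 8 = 7 := by omega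
  have h4 : y % 8 = 1 ∨ y % 8 = 3 ∨ y % 8 = 5 ∨ y % 8 = 7 := by omega
  rcases h3 with h3 | h3 | h3 | h3 <;> rcases h4 with h4 | h4 | h4 | h4 <;>
    simp [Nat.mul_mod, h3, h4, m1_sq]

theorem f_two (m : ℕ) : f (2 * m) = f m := by
  rcases Nat.eq_zero_or_pos m with rfl | hm
  · rfl
  · have h2 : f 2 = 1 := by
      unfold f
      have : ordCompl[2] 2 = 1 := by
        rw [Nat.Prime.factorization_self Nat.prime_two]
        norm_num
      rw [this]
      simp
    rw [f_mul 2 m (by norm_num) hm, h2, one_mul]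

theorem f_odd {m : ℕ} (hm : m % 2 = 1) :
    (f m : ℂ) = if m % 8 = 1 ∨ m % 8 = 3 then 1 else -1 := by
  unfold f
  have : ¬ 2 ∣ m := by omega
  rw [Nat.factorization_eq_zero_of_not_dvd this, pow_zero, Nat.div_one]
  split_ifs
  · simp
  · rw [coe_m1]

theorem f_pos {m : ℕ} (hm : m % 8 = 1 ∨ m % 8 = 3) : (f m : ℂ) = 1 := by
  rw [f_odd (by omega), if_pos hm]

theorem f_neg {m : ℕ} (hm : m % 8 = 5 ∨ m % 8 = 7) : (f m : ℂ) = -1 := by
  rw [f_odd (by omega), if_neg (by omega)]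

theorem plus_block (s : ℕ) :
    ∑ j ∈ range 8, (f ((8 * s + j + 1) ^ 2 + 1) : ℂ) = 0 := by
  have e0 : (f ((8 * s + 0 + 1) ^ 2 + 1) : ℂ) = 1 := by
    have : (8 * s + 0 + 1) ^ 2 + 1 = 2 * (8 * (4 * s ^ 2 + s) + 1) := by ring
    rw [this, f_two, f_pos (by omega)]
  have e1 : (f ((8 * s + 1 + 1) ^ 2 + 1) : ℂ) = -1 := by
    have : (8 * s + 1 + 1) ^ 2 + 1 = 8 * (8 * s ^ 2 + 4 * s) + 5 := by ring
    rw [this, f_neg (by omega)]
  have e2 : (f ((8 * s + 2 + 1) ^ 2 + 1) : ℂ) = -1 := by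
    have : (8 * s + 2 + 1) ^ 2 + 1 = 2 * (8 * (4 * s ^ 2 + 3 * s) + 5) := by ring
    rw [this, f_two, f_neg (by omega)]
  have e3 : (f ((8 * s + 3 + 1) ^ 2 + 1) : ℂ) = 1 := by
    have : (8 * s + 3 + 1) ^ 2 + 1 = 8 * (8 * s ^ 2 + 8 * s + 2) + 1 := by ring
    rw [this, f_pos (by omega)]
  have e4 : (f ((8 * s + 4 + 1) ^ 2 + 1) : ℂ) = -1 := by
    have : (8 * s + 4 + 1) ^ 2 + 1 = 2 * (8 * (4 * s ^ 2 + 5 * s + 1) + 5) := by ring
    rw [this, f_two, f_neg (by omega)]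
  have e5 : (f ((8 * s + 5 + 1) ^ 2 + 1) : ℂ) = -1 := by
    have : (8 * s + 5 + 1) ^ 2 + 1 = 8 * (8 * s ^ 2 + 12 * s + 4) + 5 := by ring
    rw [this, f_neg (by omega)]
  have e6 : (f ((8 * s + 6 + 1) ^ 2 + 1) : ℂ) = 1 := by
    have : (8 * s + 6 + 1) ^ 2 + 1 = 2 * (8 * (4 * s ^ 2 + 7 * s + 3) + 1) := by ring
    rw [this, f_two, f_pos (by omega)]
  have e7 : (f ((8 * s + 7 + 1) ^ 2 + 1) : ℂ) = 1 := by
    have : (8 * s + 7 + 1) ^ 2 + 1 = 8 * (8 * s ^ 2 + 16 * s + 8) + 1 := by ring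
    rw [this, f_pos (by omega)]
  simp only [Finset.sum_range_succ, Finset.sum_range_zero, zero_add]
  rw [e0, e1, e2, e3, e4, e5, e6, e7]
  norm_num

theorem minus_block (s : ℕ) :
    ∑ j ∈ range 32, (f ((32 * s + j + 1) * (32 * s + j + 3)) : ℂ) = 0 := by
  have hsplit : ∀ j : ℕ, (f ((32 * s + j + 1) * (32 * s + j + 3)) : ℂ) =
      (f (32 * s + (j + 1)) : ℂ) * (f (32 * s + (j + 3)) : ℂ) := by
    intro j
    rw [f_mul _ _ (by omega) (by omega), Circle.coe_mul]
    rfl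
  have P1 : ∀ j, j % 8 = 1 ∨ j % 8 = 3 → (f (32 * s + j) : ℂ) = 1 := by
    intro j hj
    exact f_pos (by omega)
  have N1 : ∀ j, j % 8 = 5 ∨ j % 8 = 7 → (f (32 * s + j) : ℂ) = -1 := by
    intro j hj
    exact f_neg (by omega)
  have P2 : ∀ j, j % 16 = 2 ∨ j % 16 = 6 → (f (32 * s + j) : ℂ) = 1 := by
    intro j hj
    obtain ⟨i, rfl⟩ : ∃ i, j = 2 * i := ⟨j / 2, by omega⟩
    have : 32 * s + 2 * i = 2 * (16 * s + i) := by ring
    rw [this, f_two]
    exact f_pos (by omega)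
  have N2 : ∀ j, j % 16 = 10 ∨ j % 16 = 14 → (f (32 * s + j) : ℂ) = -1 := by
    intro j hj
    obtain ⟨i, rfl⟩ : ∃ i, j = 2 * i := ⟨j / 2, by omega⟩
    have : 32 * s + 2 * i = 2 * (16 * s + i) := by ring
    rw [this, f_two]
    exact f_neg (by omega)
  have P4 : ∀ j, j % 32 = 4 ∨ j % 32 = 12 → (f (32 * s + j) : ℂ) = 1 := by
    intro j hj
    obtain ⟨i, rfl⟩ : ∃ i, j = 4 * i := ⟨j / 4, by omega⟩
    have : 32 * s + 4 * i = 2 * (2 * (8 * s + i)) := by ring
    rw [this, f_two, f_two]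
    exact f_pos (by omega)
  have N4 : ∀ j, j % 32 = 20 ∨ j % 32 = 28 → (f (32 * s + j) : ℂ) = -1 := by
    intro j hj
    obtain ⟨i, rfl⟩ : ∃ i, j = 4 * i := ⟨j / 4, by omega⟩
    have : 32 * s + 4 * i = 2 * (2 * (8 * s + i)) := by ring
    rw [this, f_two, f_two]
    exact f_neg (by omega)
  rw [Finset.sum_congr rfl fun j _ => hsplit j]
  simp only [Finset.sum_range_succ, Finset.sum_range_zero, zero_add, Nat.reduceAdd]
  rw [P1 1 (by omega), P1 3 (by omega), N1 5 (by omega), N1 7 (by omega), P1 9 (by omega),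
    P1 11 (by omega), N1 13 (by omega), N1 15 (by omega), P1 17 (by omega), P1 19 (by omega),
    N1 21 (by omega), N1 23 (by omega), P1 25 (by omega), P1 27 (by omega), N1 29 (by omega),
    N1 31 (by omega), P1 33 (by omega), P2 2 (by omega), P2 6 (by omega), N2 10 (by omega),
    N2 14 (by omega), P2 18 (by omega), P2 22 (by omega), N2 26 (by omega), N2 30 (by omega),
    P2 34 (by omega), P4 4 (by omega), P4 12 (by omega), N4 20 (by omega), N4 28 (by omega)]
  ring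

/-- **Item (ii).** The sets `{n ^ 2 + 1 : n ≥ 1}` and `{n ^ 2 - 1 : n ≥ 1} ∩ {1, 2, 3, …}` are
both bad. -/
theorem result : Bad {k : ℕ | ∃ n : ℕ, 1 ≤ n ∧ k = n ^ 2 + 1} ∧
    Bad {k : ℕ | 1 ≤ k ∧ ∃ n : ℕ, 1 ≤ n ∧ k + 1 = n ^ 2} := by
  constructor
  · have hφ : StrictMono (fun i : ℕ => (i + 1) ^ 2 + 1) := by
      intro i j hij
      have : (i + 1) ^ 2 < (j + 1) ^ 2 := Nat.pow_lt_pow_left (by omega) (by norm_num)
      simpa using this
    refine bad_of_enum (φ := fun i : ℕ => (i + 1) ^ 2 + 1) (C := ((8 : ℕ) : ℝ)) hφ (by norm_num)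
      ?_ f f_mul ?_
    · ext k
      simp only [Set.mem_ofPred_eq, Set.mem_range]
      constructor
      · rintro ⟨n, hn, rfl⟩
        exact ⟨n - 1, by rw [Nat.sub_add_cancel hn]⟩
      · rintro ⟨i, rfl⟩
        exact ⟨i + 1, by omega, rfl⟩
    · exact block_bound (F := fun i : ℕ => (f ((i + 1) ^ 2 + 1) : ℂ))
        (fun n => (Circle.norm_coe _).le) (by norm_num) plus_block
  · have hφ : StrictMono (fun i : ℕ => (i + 1) * (i + 3)) := by
      intro i j hij
      simp only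
      nlinarith
    refine bad_of_enum (φ := fun i : ℕ => (i + 1) * (i + 3)) (C := ((32 : ℕ) : ℝ)) hφ (by norm_num)
      ?_ f f_mul ?_
    · ext k
      simp only [Set.mem_ofPred_eq, Set.mem_range]
      constructor
      · rintro ⟨hk, n, hn, hkn⟩
        have h2 : 2 ≤ n := by
          by_contra hlt
          have : n = 1 := by omega
          subst this
          omega
        obtain ⟨i, rfl⟩ : ∃ i, n = i + 2 := ⟨n - 2, by omega⟩
        refine ⟨i, ?_⟩
        have : (i + 1) * (i + 3) + 1 = (i + 2) ^ 2 := by ring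
        omega
      · rintro ⟨i, rfl⟩
        refine ⟨?_, i + 2, by omega, by ring⟩
        nlinarith
    · exact block_bound (F := fun i : ℕ => (f ((i + 1) * (i + 3)) : ℂ))
        (fun n => (Circle.norm_coe _).le) (by norm_num) minus_block

end Pool.Agent.Results.MP_726576_nt.SquaresPlusMinusOne
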