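import Mathlib
import Pool.Agent.H633R3.DiscDefs

/-!
Item (iii): the set `{2 ^ n + 1 : n ≥ 1}` is bad. The unimodular function is the completely
multiplicative function obtained from a cubic Dirichlet character modulo
`2 ^ 15 - 1 = 7 · 31 · 151` by putting the value `1` at `7`, `31`, `151`. As `2` has odd order
modulo these primes, `2 ^ n + 1` is coprime to the modulus, and the character takes each of the
three values `5` times on `2 ^ n + 1` when `n` runs over a full period of length `15`.
-/

set_option autoImplicit false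

namespace Pool.Agent.Results.MP_726576_nt.TwoPowersPlusOne

open Finset Pool.Agent.H633R3.Disc

/-- the discrete logarithm of a cubic character modulo `p`, where `e = (p - 1) / 3` -/
def lg (p e w x : ℕ) : ZMod 3 := if x ^ e % p = 1 then 0 else if x ^ e % p = w then 1 else 2

/-- the data of a cubic character -/
structure Dat (p e w w2 : ℕ) : Prop where
  prime : p.Prime
  all : ∀ x < p, x ≠ 0 → x ^ e % p = 1 ∨ x ^ e % p = w ∨ x ^ e % p = w2
  ww : w * w % p = w2
  ww2 : w * w2 % p = 1
  w2w2 : w2 * w2 % p = w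
  one : 1 % p = 1
  wmod : w % p = w
  w2mod : w2 % p = w2
  n1 : w ≠ 1
  n2 : w2 ≠ 1
  n3 : w2 ≠ w

theorem lg_mul {p e w w2 : ℕ} (h : Dat p e w w2) {m n : ℕ} (hm : ¬ p ∣ m) (hn : ¬ p ∣ n) :
    lg p e w (m * n) = lg p e w m + lg p e w n := by
  have hval : ∀ m : ℕ, ¬ p ∣ m → m ^ e % p = 1 ∨ m ^ e % p = w ∨ m ^ e % p = w2 := by
    intro m hm
    rw [Nat.pow_mod]
    exact h.all _ (Nat.mod_lt _ h.prime.pos) fun h0 => hm (Nat.dvd_of_mod_eq_zero h0)
  have hmn : (m * n) ^ e % p = ((m ^ e % p) * (n ^ e % p)) % p := by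
    rw [mul_pow, Nat.mul_mod]
  unfold lg
  rw [hmn]
  have h1 := h.n1
  have h2 := h.n2
  have h3 := h.n3
  rcases hval m hm with hm | hm | hm <;> rcases hval n hn with hn | hn | hn <;>
    rw [hm, hn]
  · simp [h.one]
  · simp [h.wmod, h1]
  · simp [h.w2mod, h2, h3]
  · simp [h.wmod, h1]
  · rw [h.ww]
    simp [h1, h2, h3]
    decide
  · rw [h.ww2]
    simp [h1, h2, h3]
    decide
  · simp [h.w2mod, h2, h3]
  · rw [mul_comm, h.ww2]
    simp [h1, h2, h3]
    decide
  · rw [h.w2w2]
    simp [h1, h2, h3]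
    decide

theorem dat7 : Dat 7 2 2 4 where
  prime := by norm_num
  all := by decide +kernel
  ww := by norm_num
  ww2 := by norm_num
  w2w2 := by norm_num
  one := by norm_num
  wmod := by norm_num
  w2mod := by norm_num
  n1 := by norm_num
  n2 := by norm_num
  n3 := by norm_num

theorem dat31 : Dat 31 10 25 5 where
  prime := by norm_num
  all := by decide +kernel
  ww := by norm_num
  ww2 := by norm_num
  w2w2 := by norm_num
  one := by norm_num
  wmod := by norm_num
  w2mod := by norm_num
  n1 := by norm_num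
  n2 := by norm_num
  n3 := by norm_num

theorem dat151 : Dat 151 50 32 118 where
  prime := by norm_num
  all := by decide +kernel
  ww := by norm_num
  ww2 := by norm_num
  w2w2 := by norm_num
  one := by norm_num
  wmod := by norm_num
  w2mod := by norm_num
  n1 := by norm_num
  n2 := by norm_num
  n3 := by norm_num

/-- the exponent of the cubic character -/
def psi (m : ℕ) : ZMod 3 :=
  lg 7 2 2 (ordCompl[7] m) + 2 * lg 31 10 25 (ordCompl[31] m) +
    2 * lg 151 50 32 (ordCompl[151] m)

theorem psi_mul {m n : ℕ} (hm : 1 ≤ m) (hn : 1 ≤ n) : psi (m * n) = psi m + psi n := by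
  unfold psi
  rw [Nat.ordCompl_mul, Nat.ordCompl_mul, Nat.ordCompl_mul,
    lg_mul dat7 (Nat.not_dvd_ordCompl dat7.prime (by omega))
      (Nat.not_dvd_ordCompl dat7.prime (by omega)),
    lg_mul dat31 (Nat.not_dvd_ordCompl dat31.prime (by omega))
      (Nat.not_dvd_ordCompl dat31.prime (by omega)),
    lg_mul dat151 (Nat.not_dvd_ordCompl dat151.prime (by omega))
      (Nat.not_dvd_ordCompl dat151.prime (by omega))]
  ring

theorem ordCompl_self' {p m : ℕ} (h : m % p ≠ 0) : ordCompl[p] m = m := by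
  have : ¬ p ∣ m := fun hd => h (Nat.mod_eq_zero_of_dvd hd)
  rw [Nat.factorization_eq_zero_of_not_dvd this, pow_zero, Nat.div_one]

theorem lg_mod (p e w x : ℕ) : lg p e w x = lg p e w (x % p) := by
  unfold lg
  rw [Nat.pow_mod]

theorem pow_block (p s i : ℕ) (hp : 2 ^ 15 % p = 1) :
    (2 ^ (15 * s + i) + 1) % p = ((2 ^ i % p) + 1) % p := by
  have h1 : (2 ^ 15) ^ s % p = 1 % p := by
    rw [Nat.pow_mod, hp, one_pow]
  have h2 : 2 ^ (15 * s + i) ≡ 2 ^ i % p [MOD p] := by
    unfold Nat.ModEq
    rw [pow_add, pow_mul, Nat.mul_mod, h1, ← Nat.mul_mod, one_mul, Nat.mod_mod]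
  exact h2.add_right 1

theorem psi_block (s i : ℕ) (h7 : ((2 ^ i % 7) + 1) % 7 ≠ 0) (h31 : ((2 ^ i % 31) + 1) % 31 ≠ 0)
    (h151 : ((2 ^ i % 151) + 1) % 151 ≠ 0) :
    psi (2 ^ (15 * s + i) + 1) = lg 7 2 2 (((2 ^ i % 7) + 1) % 7) +
      2 * lg 31 10 25 (((2 ^ i % 31) + 1) % 31) + 2 * lg 151 50 32 (((2 ^ i % 151) + 1) % 151) := by
  have e7 := pow_block 7 s i (by norm_num)
  have e31 := pow_block 31 s i (by norm_num)
  have e151 := pow_block 151 s i (by norm_num)
  unfold psi
  rw [ordCompl_self' (p := 7) (by rw [e7]; exact h7),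
    ordCompl_self' (p := 31) (by rw [e31]; exact h31),
    ordCompl_self' (p := 151) (by rw [e151]; exact h151), lg_mod 7, lg_mod 31, lg_mod 151,
    e7, e31, e151]

/-- **Item (iii).** The set `{2 ^ n + 1 : n ≥ 1}` is bad. -/
theorem result : Bad {k : ℕ | ∃ n : ℕ, 1 ≤ n ∧ k = 2 ^ n + 1} := by
  have hφ : StrictMono (fun i : ℕ => 2 ^ (i + 1) + 1) := by
    intro i j hij
    have := Nat.pow_lt_pow_right (a := 2) (by norm_num) (Nat.add_lt_add_right hij 1)
    simpa using this
  refine bad_of_enum (φ := fun i : ℕ => 2 ^ (i + 1) + 1) (C := ((15 : ℕ) : ℝ)) hφ (by norm_num) ?_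
    (fun m => ZMod.toCircle (psi m)) ?_ ?_
  · ext k
    simp only [Set.mem_ofPred_eq, Set.mem_range]
    constructor
    · rintro ⟨n, hn, rfl⟩
      exact ⟨n - 1, by rw [Nat.sub_add_cancel hn]⟩
    · rintro ⟨i, rfl⟩
      exact ⟨i + 1, by omega, rfl⟩
  · intro m n hm hn
    rw [psi_mul hm hn, AddChar.map_add_eq_mul]
  · refine block_bound (F := fun i : ℕ => ((ZMod.toCircle (psi (2 ^ (i + 1) + 1)) : Circle) : ℂ))
      (fun n => (Circle.norm_coe _).le) (by norm_num) ?_
    intro s
    have key : ∀ j : ℕ, ∀ c : ZMod 3, ((2 ^ (j + 1) % 7) + 1) % 7 ≠ 0 →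
        ((2 ^ (j + 1) % 31) + 1) % 31 ≠ 0 → ((2 ^ (j + 1) % 151) + 1) % 151 ≠ 0 →
        lg 7 2 2 (((2 ^ (j + 1) % 7) + 1) % 7) +
          2 * lg 31 10 25 (((2 ^ (j + 1) % 31) + 1) % 31) +
          2 * lg 151 50 32 (((2 ^ (j + 1) % 151) + 1) % 151) = c →
        ((ZMod.toCircle (psi (2 ^ (15 * s + j + 1) + 1)) : Circle) : ℂ) =
          ((ZMod.toCircle c : Circle) : ℂ) := by
      intro j c h7 h31 h151 hc
      have := psi_block s (j + 1) h7 h31 h151
      rw [← add_assoc] at this
      rw [this, hc]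
    have hsum : (∑ c : ZMod 3, ((ZMod.toCircle c : Circle) : ℂ)) = 0 := by
      have h1 : (∑ c : ZMod 3, (ZMod.stdAddChar c : ℂ)) = 0 := by
        rw [AddChar.sum_eq_zero_iff_ne_zero]
        intro h0
        have h2 : (ZMod.stdAddChar (1 : ZMod 3) : ℂ) = ZMod.stdAddChar (0 : ZMod 3) := by
          rw [h0]
          simp
        exact absurd (ZMod.injective_stdAddChar h2) (by decide)
      exact h1
    have hsum' : ((ZMod.toCircle (0 : ZMod 3) : Circle) : ℂ) +
        ((ZMod.toCircle (1 : ZMod 3) : Circle) : ℂ) + ((ZMod.toCircle (2 : ZMod 3) : Circle) : ℂ) = 0 := by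
      rw [← hsum]
      exact (Fin.sum_univ_three (fun c : Fin 3 => ((ZMod.toCircle (N := 3) c : Circle) : ℂ))).symm
    simp only [Finset.sum_range_succ, Finset.sum_range_zero, zero_add]
    rw [key 0 0 (by norm_num) (by norm_num) (by norm_num) (by decide +kernel),
      key 1 2 (by norm_num) (by norm_num) (by norm_num) (by decide +kernel),
      key 2 0 (by norm_num) (by norm_num) (by norm_num) (by decide +kernel),
      key 3 2 (by norm_num) (by norm_num) (by norm_num) (by decide +kernel),
      key 4 1 (by norm_num) (by norm_num) (by norm_num) (by decide +kernel),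
      key 5 1 (by norm_num) (by norm_num) (by norm_num) (by decide +kernel),
      key 6 0 (by norm_num) (by norm_num) (by norm_num) (by decide +kernel),
      key 7 2 (by norm_num) (by norm_num) (by norm_num) (by decide +kernel),
      key 8 1 (by norm_num) (by norm_num) (by norm_num) (by decide +kernel),
      key 9 2 (by norm_num) (by norm_num) (by norm_num) (by decide +kernel),
      key 10 1 (by norm_num) (by norm_num) (by norm_num) (by decide +kernel),
      key 11 0 (by norm_num) (by norm_num) (by norm_num) (by decide +kernel),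
      key 12 0 (by norm_num) (by norm_num) (by norm_num) (by decide +kernel),
      key 13 2 (by norm_num) (by norm_num) (by norm_num) (by decide +kernel),
      key 14 1 (by norm_num) (by norm_num) (by norm_num) (by decide +kernel)]
    linear_combination 5 * hsum'

end Pool.Agent.Results.MP_726576_nt.TwoPowersPlusOne
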